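import Pool.Agent.H329R3.PM.Stmts

/-! Project H329-PME, task MixAbs (helper349). -/

set_option autoImplicit false

open MeasureTheory Set Filter Topology

namespace Pool.Agent.H329R3.PM

theorem taskMixAbs : TaskMixAbs := by
  intro a δ R k k₁ k₂ ha hδ hR hk₁ hk₂ hk
  have hcomp : IsCompact (R ×ˢ Icc a (1 : ℝ)) := hR.prod isCompact_Icc
  have huc := hcomp.uniformContinuousOn_of_continuous hk₁
  rw [Metric.uniformContinuousOn_iff] at huc
  obtain ⟨η, hη, huc'⟩ := huc (δ / 2) (by positivity)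
  have ha0 : 0 < a := ha.1
  have ha1 : a < 1 := ha.2
  obtain ⟨n₀, hn₀⟩ := exists_nat_gt ((1 - a) / η)
  refine ⟨n₀, fun n hn hnpos h hh r hr hr0 => ?_⟩
  have hnR : (0 : ℝ) < n := by exact_mod_cast hnpos
  have hcell : (1 - a) / n < η := by
    rw [div_lt_iff₀ hnR]
    rw [div_lt_iff₀ hη] at hn₀
    have : (n₀ : ℝ) ≤ n := by exact_mod_cast hn
    nlinarith
  -- continuity of `k₁ r`
  have hkc : ContinuousOn (k₁ r) (Icc a 1) := by
    have hc : ContinuousOn (fun y : ℝ => (r, y)) (Icc a 1) := by fun_prop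
    exact hk₁.comp hc (fun y hy => ⟨hr, hy⟩)
  have hbdd : ∀ y, ‖h y‖ ≤ 1 := fun y => by
    rw [Real.norm_eq_abs]
    exact hh.bdd y
  have hi1 : IntegrableOn (fun y => k₁ r y * h y) (Ioc a 1) :=
    Integrable.mul_bdd (c := 1) ((hkc.integrableOn_Icc).mono_set Ioc_subset_Icc_self)
      hh.meas.aestronglyMeasurable (Filter.Eventually.of_forall hbdd)
  obtain ⟨hk2i, hk2b⟩ := hk₂ r hr hr0
  have hi2 : IntegrableOn (fun y => k₂ r y * h y) (Ioc a 1) :=
    Integrable.mul_bdd (c := 1) hk2i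
      hh.meas.aestronglyMeasurable (Filter.Eventually.of_forall hbdd)
  have hih : IntegrableOn h (Ioc a 1) := by
    have : IntegrableOn (fun _ : ℝ => (1 : ℝ)) (Ioc a 1) := by
      simp
    have h3 := Integrable.mul_bdd (c := 1) this
      hh.meas.aestronglyMeasurable (Filter.Eventually.of_forall hbdd)
    simp only [one_mul] at h3
    exact h3
  -- reduction to `(a, 1]`
  have hS : Sop k h r = (∫ y in Ioc a 1, k₁ r y * h y) + ∫ y in Ioc a 1, k₂ r y * h y := by
    unfold Sop
    have h1 : ∫ y in Ioc (0 : ℝ) 1, k r y * h y = ∫ y in Ioc a 1, k r y * h y := by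
      refine setIntegral_eq_of_subset_of_forall_sdiff_eq_zero measurableSet_Ioc
        (Ioc_subset_Ioc_left ha0.le) ?_
      intro y hy
      rw [hh.supp y hy.2, mul_zero]
    rw [h1, ← integral_add hi1 hi2]
    refine setIntegral_congr_fun measurableSet_Ioc ?_
    intro y hy
    change k r y * h y = k₁ r y * h y + k₂ r y * h y
    rw [hk r hr hr0 y hy]
    ring
  have hb2 : |∫ y in Ioc a 1, k₂ r y * h y| ≤ δ / 2 := by
    refine le_trans ?_ hk2b
    have h1 : |∫ y in Ioc a 1, k₂ r y * h y| ≤ ∫ y in Ioc a 1, |k₂ r y * h y| :=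
      abs_integral_le_integral_abs
    refine h1.trans (integral_mono hi2.abs hk2i.abs ?_)
    intro y
    change |k₂ r y * h y| ≤ |k₂ r y|
    rw [abs_mul]
    exact mul_le_of_le_one_right (abs_nonneg _) (hh.bdd y)
  -- cells
  obtain ⟨t, ht⟩ : ∃ t : ℕ → ℝ, t = fun i : ℕ => a + (1 - a) * (i : ℝ) / n := ⟨_, rfl⟩
  have ht0 : t 0 = a := by rw [ht]; simp
  have htn : t n = 1 := by
    rw [ht]
    change a + (1 - a) * n / n = 1
    rw [mul_div_assoc, div_self hnR.ne']
    ring
  have htd : ∀ i, t (i + 1) - t i = (1 - a) / n := by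
    intro i
    rw [ht]
    change a + (1 - a) * ((i + 1 : ℕ) : ℝ) / n - (a + (1 - a) * i / n) = (1 - a) / n
    push_cast
    ring
  have hd0 : 0 ≤ (1 - a) / n := div_nonneg (by linarith) hnR.le
  have hta : ∀ i, a ≤ t i := by
    intro i
    rw [ht]
    change a ≤ a + (1 - a) * i / n
    have : 0 ≤ (1 - a) * i / n := div_nonneg (mul_nonneg (by linarith) (Nat.cast_nonneg i)) hnR.le
    linarith
  have ht1 : ∀ i, i ≤ n → t i ≤ 1 := by
    intro i hi
    have h1 : (i : ℝ) ≤ n := by exact_mod_cast hi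
    have h2 : (1 - a) * i / n ≤ 1 - a := by
      rw [div_le_iff₀ hnR]
      exact mul_le_mul_of_nonneg_left h1 (by linarith)
    rw [ht]
    change a + (1 - a) * i / n ≤ 1
    linarith
  have hle : ∀ i, t i ≤ t (i + 1) := fun i => by linarith [htd i]
  have hsub : ∀ i, i < n → Ioc (t i) (t (i + 1)) ⊆ Ioc a 1 := fun i hi =>
    Ioc_subset_Ioc (hta i) (ht1 (i + 1) hi)
  have hint : ∀ i < n, IntervalIntegrable (fun y => k₁ r y * h y) volume (t i) (t (i + 1)) := by
    intro i hi
    rw [intervalIntegrable_iff_integrableOn_Ioc_of_le (hle i)]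
    exact hi1.mono_set (hsub i hi)
  have hinth : ∀ i < n, IntervalIntegrable h volume (t i) (t (i + 1)) := by
    intro i hi
    rw [intervalIntegrable_iff_integrableOn_Ioc_of_le (hle i)]
    exact hih.mono_set (hsub i hi)
  have hsum : ∫ y in Ioc a 1, k₁ r y * h y =
      ∑ i ∈ Finset.range n, ∫ y in (t i)..(t (i + 1)), k₁ r y * h y := by
    rw [intervalIntegral.sum_integral_adjacent_intervals hint, ht0, htn,
      intervalIntegral.integral_of_le ha1.le]
  have hcellb : ∀ i ∈ Finset.range n, ‖∫ y in (t i)..(t (i + 1)), k₁ r y * h y‖ ≤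
      δ / 2 * ((1 - a) / n) := by
    intro i hi
    have hin := Finset.mem_range.1 hi
    have hz : ∫ y in (t i)..(t (i + 1)), h y = 0 := by
      rw [intervalIntegral.integral_of_le (hle i)]
      have h4 := hh.cell i hin
      have h5 : t (i + 1) = a + (1 - a) * ((i : ℝ) + 1) / n := by
        rw [ht]
        change a + (1 - a) * ((i + 1 : ℕ) : ℝ) / n = _
        push_cast
        ring
      have h6 : t i = a + (1 - a) * i / n := by rw [ht]
      rw [h5, h6]
      exact h4
    have heq : ∫ y in (t i)..(t (i + 1)), k₁ r y * h y =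
        ∫ y in (t i)..(t (i + 1)), (k₁ r y * h y - k₁ r (t i) * h y) := by
      rw [intervalIntegral.integral_sub (hint i hin) ((hinth i hin).const_mul _),
        intervalIntegral.integral_const_mul, hz, mul_zero, sub_zero]
    rw [heq]
    have hnb := intervalIntegral.norm_integral_le_of_norm_le_const (C := δ / 2)
      (a := t i) (b := t (i + 1)) (f := fun y => k₁ r y * h y - k₁ r (t i) * h y) ?_
    · rw [htd i, abs_of_nonneg hd0] at hnb
      exact hnb
    · intro y hy
      rw [Set.uIoc_of_le (hle i)] at hy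
      have hy1 := hsub i hin hy
      change ‖k₁ r y * h y - k₁ r (t i) * h y‖ ≤ δ / 2
      rw [← sub_mul, norm_mul]
      have hdist : dist (k₁ r y) (k₁ r (t i)) < δ / 2 := by
        refine huc' (r, y) ⟨hr, hy1.1.le, hy1.2⟩ (r, t i) ⟨hr, hta i, ht1 i hin.le⟩ ?_
        rw [Prod.dist_eq]
        simp only [dist_self]
        rw [max_lt_iff]
        refine ⟨hη, ?_⟩
        rw [Real.dist_eq, abs_of_nonneg (by linarith [hy.1])]
        have := htd i
        linarith [hy.2]
      rw [dist_eq_norm] at hdist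
      calc ‖k₁ r y - k₁ r (t i)‖ * ‖h y‖ ≤ (δ / 2) * 1 :=
            mul_le_mul hdist.le (hbdd y) (norm_nonneg _) (by positivity)
        _ = δ / 2 := mul_one _
  have hb1 : |∫ y in Ioc a 1, k₁ r y * h y| ≤ δ / 2 := by
    rw [hsum, ← Real.norm_eq_abs]
    refine (norm_sum_le _ _).trans ((Finset.sum_le_sum hcellb).trans ?_)
    rw [Finset.sum_const, Finset.card_range, nsmul_eq_mul]
    have h7 : (n : ℝ) * (δ / 2 * ((1 - a) / n)) = δ / 2 * (1 - a) := by
      field_simp
    rw [h7]
    have : δ / 2 * (1 - a) ≤ δ / 2 * 1 := mul_le_mul_of_nonneg_left (by linarith) (by positivity)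
    linarith
  rw [hS]
  calc |(∫ y in Ioc a 1, k₁ r y * h y) + ∫ y in Ioc a 1, k₂ r y * h y| ≤ δ / 2 + δ / 2 :=
        (abs_add_le _ _).trans (add_le_add hb1 hb2)
    _ = δ := by ring

end Pool.Agent.H329R3.PM
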